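import Mathlib

set_option autoImplicit false

namespace Pool.Agent.Results.MP_6f9abf_an.Cont

open MeasureTheory Set Filter Topology

variable {Ω : Type*} [MeasurableSpace Ω]

/-- The class of the indicator of a measurable set `A` in `L⁰(F, K)`. -/
noncomputable def ind (μ : Measure Ω) (K : Type*) [RCLike K] (A : Set Ω)
    (hA : MeasurableSet A) : Ω →ₘ[μ] K :=
  AEEqFun.mk (A.indicator fun _ => 1) (aestronglyMeasurable_const.indicator hA)

/-- Countable measurable partitions of `Ω`. -/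
structure Part (Ω : Type*) [MeasurableSpace Ω] where
  A : ℕ → Set Ω
  meas : ∀ n, MeasurableSet (A n)
  disj : ∀ m n, m ≠ n → Disjoint (A m) (A n)
  cover : ⋃ n, A n = univ

/-- `L⁰`-seminorms. -/
structure IsSeminorm (μ : Measure Ω) (K : Type*) [RCLike K] {E : Type*} [AddCommGroup E]
    [SMul (Ω →ₘ[μ] K) E] (p : E → (Ω →ₘ[μ] ℝ)) : Prop where
  nonneg : ∀ x, 0 ≤ p x
  smul : ∀ (ξ : Ω →ₘ[μ] K) (x : E),
    p (ξ • x) = AEEqFun.comp (fun z : K => ‖z‖) continuous_norm ξ * p x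
  add : ∀ x y, p (x + y) ≤ p x + p y

/-- `‖x‖_Q`, the supremum of the `p x`, `p ∈ Q` (and `0` for empty `Q`). -/
noncomputable def normQ {μ : Measure Ω} {E : Type*} (Q : Finset (E → (Ω →ₘ[μ] ℝ))) (x : E) :
    Ω →ₘ[μ] ℝ :=
  Q.fold (fun a b => a ⊔ b) 0 (fun p => p x)

/-- `y = ∑ I_{A n} x n`. -/
def Glue (μ : Measure Ω) (K : Type*) [RCLike K] {E : Type*} [SMul (Ω →ₘ[μ] K) E]
    (D : Part Ω) (x : ℕ → E) (y : E) : Prop :=
  ∀ n, ind μ K (D.A n) (D.meas n) • y = ind μ K (D.A n) (D.meas n) • x n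

/-- The family `P` is `σ`-stable. -/
def FamStable (μ : Measure Ω) {E : Type*} (P : Set (E → (Ω →ₘ[μ] ℝ))) : Prop :=
  ∀ (D : Part Ω) (Q : ℕ → Finset (E → (Ω →ₘ[μ] ℝ))),
    (∀ n, (Q n).Nonempty ∧ (Q n : Set (E → (Ω →ₘ[μ] ℝ))) ⊆ P) →
    ∃ p ∈ P, ∀ (x : E) (n : ℕ),
      ind μ ℝ (D.A n) (D.meas n) * p x = ind μ ℝ (D.A n) (D.meas n) * normQ (Q n) x

/-- Basic neighbourhoods of `0` for the `(ε, λ)`-topology. -/
def nbEL (μ : Measure Ω) {E : Type*} (Q : Finset (E → (Ω →ₘ[μ] ℝ))) (ε l : ℝ) : Set E :=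
  {x | 1 - l < μ.real {ω | normQ Q x ω < ε}}

/-- Basic neighbourhoods of `0` for the locally `L⁰`-convex topology. -/
def nbC (μ : Measure Ω) {E : Type*} (Q : Finset (E → (Ω →ₘ[μ] ℝ))) (ε : Ω →ₘ[μ] ℝ) : Set E :=
  {x | ∀ᵐ ω ∂μ, normQ Q x ω < ε ω}

/-- Triples `(Q, ε, λ)` with `Q ⊆ P` finite, `0 < ε`, `0 < λ < 1`. -/
abbrev IdxEL (μ : Measure Ω) {E : Type*} (P : Set (E → (Ω →ₘ[μ] ℝ))) :=
  {i : Finset (E → (Ω →ₘ[μ] ℝ)) × ℝ × ℝ //
    (i.1 : Set (E → (Ω →ₘ[μ] ℝ))) ⊆ P ∧ 0 < i.2.1 ∧ 0 < i.2.2 ∧ i.2.2 < 1}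

/-- Pairs `(Q, ε)` with `Q ⊆ P` finite and `ε > 0` almost surely. -/
abbrev IdxC (μ : Measure Ω) {E : Type*} (P : Set (E → (Ω →ₘ[μ] ℝ))) :=
  {i : Finset (E → (Ω →ₘ[μ] ℝ)) × (Ω →ₘ[μ] ℝ) //
    (i.1 : Set (E → (Ω →ₘ[μ] ℝ))) ⊆ P ∧ ∀ᵐ ω ∂μ, 0 < i.2 ω}

/-- The `(ε, λ)`-topology: `U` is open iff it contains a translate `x + V` of a basic
neighbourhood `V` of `0` around each of its points `x`. -/
@[reducible] def topEL (μ : Measure Ω) {E : Type*} [AddCommGroup E] (P : Set (E → (Ω →ₘ[μ] ℝ))) :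
    TopologicalSpace E :=
  TopologicalSpace.mkOfNhds fun x =>
    ⨅ i : IdxEL μ P,
      𝓟 {y | y - x ∈ nbEL μ i.1.1 i.1.2.1 i.1.2.2}

/-- The locally `L⁰`-convex topology `T_c`, defined in the same way. -/
@[reducible] def topC (μ : Measure Ω) {E : Type*} [AddCommGroup E] (P : Set (E → (Ω →ₘ[μ] ℝ))) :
    TopologicalSpace E :=
  TopologicalSpace.mkOfNhds fun x =>
    ⨅ i : IdxC μ P,
      𝓟 {y | y - x ∈ nbC μ i.1.1 i.1.2}

section
variable {μ : Measure Ω} {K : Type*} [RCLike K] {E : Type*}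

lemma ind_ae (K : Type*) [RCLike K] (A : Set Ω) (hA : MeasurableSet A) :
    ∀ᵐ ω ∂μ, ω ∈ A → ind μ K A hA ω = 1 := by
  filter_upwards [AEEqFun.coeFn_mk (μ := μ) (A.indicator fun _ => (1 : K))
    (aestronglyMeasurable_const.indicator hA)] with ω h hω
  rw [ind, h, indicator_of_mem hω]

lemma normQ_ae (Q : Finset (E → (Ω →ₘ[μ] ℝ))) (x : E) :
    ∀ᵐ ω ∂μ, normQ Q x ω = Q.fold max 0 (fun p => p x ω) := by
  classical
  induction Q using Finset.induction_on with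
  | empty =>
    filter_upwards [AEEqFun.coeFn_zero (μ := μ) (β := ℝ)] with ω h
    simpa [normQ] using h
  | insert a s ha ih =>
    filter_upwards [ih, AEEqFun.coeFn_sup (a x) (normQ s x)] with ω h1 h2
    rw [Finset.fold_insert ha, ← h1]
    rw [normQ, Finset.fold_insert ha]
    exact h2

lemma normQ_lt (Q : Finset (E → (Ω →ₘ[μ] ℝ))) (x : E) :
    ∀ᵐ ω ∂μ, ∀ c : ℝ, normQ Q x ω < c ↔ (0 < c ∧ ∀ p ∈ Q, p x ω < c) := by
  filter_upwards [normQ_ae Q x] with ω h c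
  rw [h, Finset.fold_max_lt]

lemma mul_loc {A : Set Ω} {hA : MeasurableSet A} {u v : Ω →ₘ[μ] ℝ}
    (h : ind μ ℝ A hA * u = ind μ ℝ A hA * v) : ∀ᵐ ω ∂μ, ω ∈ A → u ω = v ω := by
  filter_upwards [ind_ae (μ := μ) ℝ A hA, AEEqFun.coeFn_mul (ind μ ℝ A hA) u,
    AEEqFun.coeFn_mul (ind μ ℝ A hA) v] with ω h1 h2 h3 hω
  rw [h, h3] at h2
  simpa [h1 hω] using h2.symm

variable [AddCommGroup E] [DistribMulAction (Ω →ₘ[μ] K) E]

lemma smul_ae {p : E → (Ω →ₘ[μ] ℝ)} (hp : IsSeminorm μ K p) (ξ : Ω →ₘ[μ] K) (x : E) :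
    ∀ᵐ ω ∂μ, p (ξ • x) ω = ‖ξ ω‖ * p x ω := by
  filter_upwards [AEEqFun.coeFn_mul (AEEqFun.comp (fun z : K => ‖z‖) continuous_norm ξ) (p x),
    AEEqFun.coeFn_comp (fun z : K => ‖z‖) continuous_norm ξ] with ω h1 h2
  rw [hp.smul, h1, Pi.mul_apply, h2]
  rfl

lemma sn_zero {p : E → (Ω →ₘ[μ] ℝ)} (hp : IsSeminorm μ K p) : ∀ᵐ ω ∂μ, p 0 ω = 0 := by
  filter_upwards [smul_ae hp 0 0, AEEqFun.coeFn_zero (μ := μ) (β := K)] with ω h1 h2
  rw [smul_zero, h2] at h1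
  simpa using h1

lemma sn_loc {p : E → (Ω →ₘ[μ] ℝ)} (hp : IsSeminorm μ K p) {A : Set Ω} {hA : MeasurableSet A}
    {u v : E} (h : ind μ K A hA • u = ind μ K A hA • v) : ∀ᵐ ω ∂μ, ω ∈ A → p u ω = p v ω := by
  filter_upwards [ind_ae (μ := μ) K A hA, smul_ae hp (ind μ K A hA) u,
    smul_ae hp (ind μ K A hA) v] with ω h1 h2 h3 hω
  rw [h, h3, h1 hω] at h2
  simpa using h2.symm

lemma sn_add {p : E → (Ω →ₘ[μ] ℝ)} (hp : IsSeminorm μ K p) (x y : E) :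
    ∀ᵐ ω ∂μ, p (x + y) ω ≤ p x ω + p y ω := by
  filter_upwards [AEEqFun.coeFn_le.2 (hp.add x y), AEEqFun.coeFn_add (p x) (p y)] with ω h1 h2
  rw [h2] at h1
  exact h1

lemma normQ_zero {Q : Finset (E → (Ω →ₘ[μ] ℝ))} (hQ : ∀ p ∈ Q, IsSeminorm μ K p) :
    ∀ᵐ ω ∂μ, ∀ c : ℝ, 0 < c → normQ Q 0 ω < c := by
  have h := (eventually_all_finset Q).2 fun p hp => sn_zero (hQ p hp)
  filter_upwards [h, normQ_lt Q 0] with ω h1 h2 c hc
  exact (h2 c).2 ⟨hc, fun p hp => by rw [h1 p hp]; exact hc⟩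

lemma normQ_loc {Q : Finset (E → (Ω →ₘ[μ] ℝ))} (hQ : ∀ p ∈ Q, IsSeminorm μ K p)
    {A : Set Ω} {hA : MeasurableSet A} {u v : E} (w : E)
    (h : ind μ K A hA • u = ind μ K A hA • v) :
    ∀ᵐ ω ∂μ, ω ∈ A → normQ Q (u - w) ω = normQ Q (v - w) ω := by
  have h' : ind μ K A hA • (u - w) = ind μ K A hA • (v - w) := by
    rw [smul_sub, smul_sub, h]
  have h0 := (eventually_all_finset Q).2 fun p hp => sn_loc (hQ p hp) h'
  filter_upwards [h0, normQ_ae Q (u - w), normQ_ae Q (v - w)] with ω h1 h2 h3 hω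
  rw [h2, h3]
  exact Finset.fold_congr fun p hp => h1 p hp hω

lemma normQ_add {Q : Finset (E → (Ω →ₘ[μ] ℝ))} (hQ : ∀ p ∈ Q, IsSeminorm μ K p) (x y : E) :
    ∀ᵐ ω ∂μ, ∀ a b : ℝ, normQ Q x ω < a → normQ Q y ω < b → normQ Q (x + y) ω < a + b := by
  have h := (eventually_all_finset Q).2 fun p hp => sn_add (hQ p hp) x y
  filter_upwards [h, normQ_lt Q x, normQ_lt Q y, normQ_lt Q (x + y)] with ω h1 h2 h3 h4 a b ha hb
  rw [h2] at ha
  rw [h3] at hb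
  exact (h4 _).2 ⟨by linarith [ha.1, hb.1], fun p hp => by
    linarith [h1 p hp, ha.2 p hp, hb.2 p hp]⟩

omit [AddCommGroup E] in
lemma normQ_mono {Q Q' : Finset (E → (Ω →ₘ[μ] ℝ))} (h : Q ⊆ Q') (x : E) :
    ∀ᵐ ω ∂μ, ∀ c : ℝ, normQ Q' x ω < c → normQ Q x ω < c := by
  filter_upwards [normQ_lt Q x, normQ_lt Q' x] with ω h1 h2 c hc
  rw [h2] at hc
  exact (h1 c).2 ⟨hc.1, fun p hp => hc.2 p (h hp)⟩

lemma exists_part (s : ℕ → Set Ω) (hs : ∀ n, MeasurableSet (s n)) :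
    ∃ D : Part Ω, D.A 0 = (⋃ n, s n)ᶜ ∧ ∀ n, D.A (n + 1) ⊆ s n := by
  refine ⟨⟨fun n => Nat.casesOn n (⋃ n, s n)ᶜ (fun m => disjointed s m), ?_, ?_, ?_⟩, rfl,
    fun n => disjointed_subset s n⟩
  · rintro (_ | n)
    · exact (MeasurableSet.iUnion hs).compl
    · exact MeasurableSet.disjointed hs n
  · have h0 : ∀ m, Disjoint (⋃ n, s n)ᶜ (disjointed s m) := fun m =>
      disjoint_compl_left.mono_right ((disjointed_subset s m).trans (subset_iUnion s m))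
    rintro (_ | m) (_ | n) hmn
    · exact absurd rfl hmn
    · exact h0 n
    · exact (h0 m).symm
    · exact disjoint_disjointed s (fun h => hmn (by rw [h]))
  · refine eq_univ_of_forall fun ω => ?_
    by_cases h : ω ∈ ⋃ n, s n
    · rw [← iUnion_disjointed] at h
      obtain ⟨n, hn⟩ := mem_iUnion.1 h
      exact mem_iUnion.2 ⟨n + 1, hn⟩
    · exact mem_iUnion.2 ⟨0, h⟩

lemma meas_lt (u : Ω →ₘ[μ] ℝ) (c : ℝ) : MeasurableSet {ω | u ω < c} :=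
  measurableSet_lt u.measurable measurable_const

lemma good [IsProbabilityMeasure μ] {P : Set (E → (Ω →ₘ[μ] ℝ))} (hP : ∀ p ∈ P, IsSeminorm μ K p)
    (hE : ∀ (D : Part Ω) (x : ℕ → E), ∃ y, Glue μ K D x y) {G : Set E}
    (hG : ∀ (D : Part Ω) (x : ℕ → E) (y : E), (∀ n, x n ∈ G) → Glue μ K D x y → y ∈ G)
    {f : E → E}
    (hf : ∀ (D : Part Ω) (x : ℕ → E) (y : E), (∀ n, x n ∈ G) → Glue μ K D x y →
      Glue μ K D (fun n => f (x n)) (f y))
    {x0 : E} (hx0 : x0 ∈ G) {Q : Finset (E → (Ω →ₘ[μ] ℝ))} (hQ : (Q : Set _) ⊆ P)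
    (hc : ∀ η l : ℝ, 0 < η → 0 < l → l < 1 → ∃ (Q' : Finset (E → (Ω →ₘ[μ] ℝ))) (δ l' : ℝ),
      (Q' : Set _) ⊆ P ∧ 0 < δ ∧ 0 < l' ∧
        ∀ x ∈ G, x - x0 ∈ nbEL μ Q' δ l' → f x - f x0 ∈ nbEL μ Q η l)
    {ε : Ω →ₘ[μ] ℝ} (hε : ∀ᵐ ω ∂μ, 0 < ε ω) {B : Set Ω} (hB : MeasurableSet B) (hB0 : μ B ≠ 0) :
    ∃ A ⊆ B, MeasurableSet A ∧ μ A ≠ 0 ∧ ∃ (Q' : Finset (E → (Ω →ₘ[μ] ℝ))) (δ : ℝ),
      (Q' : Set _) ⊆ P ∧ 0 < δ ∧ ∀ x ∈ G, ∀ᵐ ω ∂μ, ω ∈ A → normQ Q' (x - x0) ω < δ →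
        normQ Q (f x - f x0) ω < ε ω := by
  obtain ⟨k, hk⟩ : ∃ k : ℕ, μ (B ∩ {ω | 1 / ((k : ℝ) + 1) < ε ω}) ≠ 0 := by
    by_contra hcon
    push Not at hcon
    apply hB0
    have h1 : ∀ᵐ ω ∂μ, ∀ k : ℕ, ω ∉ B ∩ {ω | 1 / ((k : ℝ) + 1) < ε ω} :=
      ae_all_iff.2 fun k => measure_eq_zero_iff_ae_notMem.1 (hcon k)
    refine measure_eq_zero_iff_ae_notMem.2 ?_
    filter_upwards [h1, hε] with ω h2 h3 hω
    obtain ⟨k, hk⟩ := exists_nat_one_div_lt h3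
    exact h2 k ⟨hω, hk⟩
  set η : ℝ := 1 / ((k : ℝ) + 1) with hη
  set B' := B ∩ {ω | η < ε ω} with hB'
  have hB'm : MeasurableSet B' := hB.inter (measurableSet_lt measurable_const ε.measurable)
  have hpos : 0 < μ.real B' := ENNReal.toReal_pos hk (measure_ne_top _ _)
  have hle : μ.real B' ≤ 1 := measureReal_le_one
  obtain ⟨Q', δ, l', hQ', hδ, hl', H⟩ := hc η (μ.real B' / 2) (by positivity) (by linarith)
    (by linarith)
  have hQs : ∀ p ∈ Q, IsSeminorm μ K p := fun p hp => hP p (hQ hp)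
  have hQs' : ∀ p ∈ Q', IsSeminorm μ K p := fun p hp => hP p (hQ' hp)
  let C : E → Set Ω := fun x =>
    {ω | normQ Q' (x - x0) ω < δ} ∩ {ω | normQ Q (f x - f x0) ω < η}ᶜ
  have hCm : ∀ x, MeasurableSet (C x) := fun x => (meas_lt _ _).inter (meas_lt _ _).compl
  obtain ⟨D, hDC, hDc, hD⟩ := Measure.exists_ae_subset_biUnion_countable μ
    (C := C '' G) (by rintro _ ⟨x, -, rfl⟩; exact hCm x)
  obtain ⟨s, hs⟩ := (hDc.insert (C x0)).exists_eq_range (insert_nonempty _ _)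
  have hs' : ∀ n, ∃ x ∈ G, C x = s n := fun n => by
    have : s n ∈ insert (C x0) D := hs ▸ mem_range_self n
    rcases this with h | h
    · exact ⟨x0, hx0, h.symm⟩
    · exact hDC h
  choose xs hxs hxs' using hs'
  obtain ⟨Dp, hD0, hDs⟩ := exists_part s (fun n => hxs' n ▸ hCm (xs n))
  let z : ℕ → E := fun n => Nat.casesOn n x0 xs
  have hz : ∀ n, z n ∈ G := by
    rintro (_ | n)
    · exact hx0
    · exact hxs n
  obtain ⟨y, hy⟩ := hE Dp z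
  have hyG := hG Dp z y hz hy
  have hfy := hf Dp z y hz hy
  have e1 := ae_all_iff.2 fun n => normQ_loc hQs' x0 (hy n)
  have e2 := ae_all_iff.2 fun n => normQ_loc hQs (f x0) (hfy n)
  have hcov : ∀ ω, ∃ n, ω ∈ Dp.A n := fun ω => mem_iUnion.1 (Dp.cover ▸ mem_univ ω)
  have h1 : ∀ᵐ ω ∂μ, normQ Q' (y - x0) ω < δ := by
    filter_upwards [e1, normQ_zero hQs'] with ω h1 h2
    obtain ⟨n, hn⟩ := hcov ω
    rw [h1 n hn]
    rcases n with _ | n
    · have : z 0 - x0 = 0 := sub_self x0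
      rw [this]
      exact h2 δ hδ
    · have := hDs n hn
      rw [← hxs' n] at this
      exact this.1
  have h2 : f y - f x0 ∈ nbEL μ Q η (μ.real B' / 2) := by
    refine H y hyG ?_
    have : μ.real {ω | normQ Q' (y - x0) ω < δ} = μ.real univ :=
      measureReal_congr (by
        filter_upwards [h1] with ω hω
        exact propext ⟨fun _ => trivial, fun _ => hω⟩)
    change 1 - l' < μ.real {ω | normQ Q' (y - x0) ω < δ}
    rw [this, probReal_univ]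
    linarith
  have h3 : (⋃ n, s n) ≤ᵐ[μ] {ω | normQ Q (f y - f x0) ω < η}ᶜ := by
    filter_upwards [e2] with ω h1 hω
    obtain ⟨n, hn⟩ := hcov ω
    rcases n with _ | n
    · rw [hD0] at hn
      exact absurd hω hn
    · have := hDs n hn
      rw [← hxs' n] at this
      intro hlt
      apply this.2
      have e := h1 (n + 1) hn
      change normQ Q (f y - f x0) ω < η at hlt
      rw [e] at hlt
      exact hlt
  have h4 : μ.real (⋃ n, s n) < μ.real B' / 2 := by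
    have a1 : μ.real (⋃ n, s n) ≤ μ.real {ω | normQ Q (f y - f x0) ω < η}ᶜ :=
      ENNReal.toReal_mono (measure_ne_top _ _) (measure_mono_ae h3)
    rw [probReal_compl_eq_one_sub (meas_lt _ _)] at a1
    change 1 - μ.real B' / 2 < μ.real {ω | normQ Q (f y - f x0) ω < η} at h2
    linarith
  have hsm : MeasurableSet (⋃ n, s n) := MeasurableSet.iUnion fun n => hxs' n ▸ hCm (xs n)
  refine ⟨B' \ ⋃ n, s n, fun ω hω => hω.1.1, hB'm.diff hsm, fun h0 => ?_, Q', δ, hQ', hδ,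
    fun x hx => ?_⟩
  · have a1 : μ.real B' ≤ μ.real (⋃ n, s n) := by
      refine ENNReal.toReal_mono (measure_ne_top _ _) (measure_mono_ae ?_)
      filter_upwards [measure_eq_zero_iff_ae_notMem.1 h0] with ω hω hω'
      by_contra hn
      exact hω ⟨hω', hn⟩
    linarith
  · filter_upwards [hD (C x) ⟨x, hx, rfl⟩] with ω hω hA hlt
    by_contra hn
    have hC : ω ∈ C x := ⟨hlt, fun h => hn (lt_trans h hA.1.2)⟩
    obtain ⟨t, ht, hωt⟩ := hω hC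
    have : t ∈ range s := hs ▸ mem_insert_of_mem _ ht
    obtain ⟨n, rfl⟩ := this
    exact hA.2 (mem_iUnion.2 ⟨n, hωt⟩)

lemma core [IsProbabilityMeasure μ] {P : Set (E → (Ω →ₘ[μ] ℝ))} (hP : ∀ p ∈ P, IsSeminorm μ K p)
    (hPs : FamStable μ P)
    (hE : ∀ (D : Part Ω) (x : ℕ → E), ∃ y, Glue μ K D x y) {G : Set E}
    (hG : ∀ (D : Part Ω) (x : ℕ → E) (y : E), (∀ n, x n ∈ G) → Glue μ K D x y → y ∈ G)
    {f : E → E}
    (hf : ∀ (D : Part Ω) (x : ℕ → E) (y : E), (∀ n, x n ∈ G) → Glue μ K D x y →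
      Glue μ K D (fun n => f (x n)) (f y))
    {x0 : E} (hx0 : x0 ∈ G) {Q : Finset (E → (Ω →ₘ[μ] ℝ))} (hQ : (Q : Set _) ⊆ P)
    (hc : ∀ η l : ℝ, 0 < η → 0 < l → l < 1 → ∃ (Q' : Finset (E → (Ω →ₘ[μ] ℝ))) (δ l' : ℝ),
      (Q' : Set _) ⊆ P ∧ 0 < δ ∧ 0 < l' ∧
        ∀ x ∈ G, x - x0 ∈ nbEL μ Q' δ l' → f x - f x0 ∈ nbEL μ Q η l)
    {ε : Ω →ₘ[μ] ℝ} (hε : ∀ᵐ ω ∂μ, 0 < ε ω) :
    ∃ (Q' : Finset (E → (Ω →ₘ[μ] ℝ))) (δ : Ω →ₘ[μ] ℝ), (Q' : Set _) ⊆ P ∧ (∀ᵐ ω ∂μ, 0 < δ ω) ∧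
      ∀ x ∈ G, x - x0 ∈ nbC μ Q' δ → f x - f x0 ∈ nbC μ Q ε := by
  classical
  rcases Q.eq_empty_or_nonempty with rfl | ⟨q0, hq0⟩
  · refine ⟨∅, ε, by simp, hε, fun x _ _ => ?_⟩
    filter_upwards [normQ_lt ∅ (f x - f x0), hε] with ω h1 h2
    exact (h1 _).2 ⟨h2, by simp⟩
  let S : Set (Set Ω) := {A | MeasurableSet A ∧ ∃ (Q' : Finset (E → (Ω →ₘ[μ] ℝ))) (δ : ℝ),
      (Q' : Set _) ⊆ P ∧ 0 < δ ∧ ∀ x ∈ G, ∀ᵐ ω ∂μ, ω ∈ A → normQ Q' (x - x0) ω < δ →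
        normQ Q (f x - f x0) ω < ε ω}
  obtain ⟨D, hDC, hDc, hD⟩ := Measure.exists_ae_subset_biUnion_countable μ
    (C := S) (fun A hA => hA.1)
  obtain ⟨s, hs⟩ := (hDc.insert ∅).exists_eq_range (insert_nonempty _ _)
  have hs' : ∀ n, s n ∈ S := fun n => by
    have : s n ∈ insert ∅ D := hs ▸ mem_range_self n
    rcases this with h | h
    · rw [h]
      exact ⟨MeasurableSet.empty, ∅, 1, by simp, one_pos, fun x _ =>
        Eventually.of_forall fun ω hω => absurd hω (notMem_empty ω)⟩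
    · exact hDC h
  have hsm : ∀ n, MeasurableSet (s n) := fun n => (hs' n).1
  choose Qs ds hQs hds H using fun n => (hs' n).2
  obtain ⟨Dp, hD0, hDs⟩ := exists_part s hsm
  have hnull : μ (Dp.A 0) = 0 := by
    by_contra h0
    obtain ⟨A, hAB, hAm, hA0, hA⟩ := good hP hE hG hf hx0 hQ hc hε (Dp.meas 0) h0
    apply hA0
    refine measure_eq_zero_iff_ae_notMem.2 ?_
    filter_upwards [hD A ⟨hAm, hA⟩] with ω hω hωA
    obtain ⟨t, ht, hωt⟩ := hω hωA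
    have : t ∈ range s := hs ▸ mem_insert_of_mem _ ht
    obtain ⟨n, rfl⟩ := this
    have := hAB hωA
    rw [hD0] at this
    exact this (mem_iUnion.2 ⟨n, hωt⟩)
  let R : ℕ → Finset (E → (Ω →ₘ[μ] ℝ)) := fun n => Nat.casesOn n {q0} fun m => insert q0 (Qs m)
  obtain ⟨p, hpP, hp⟩ := hPs Dp R (by
    rintro (_ | n)
    · exact ⟨Finset.singleton_nonempty _, by simpa [R] using hQ hq0⟩
    · refine ⟨Finset.insert_nonempty _ _, ?_⟩
      change ((insert q0 (Qs n) : Finset _) : Set _) ⊆ P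
      rw [Finset.coe_insert]
      exact insert_subset (hQ hq0) (hQs n))
  have hcov : ∀ ω, ∃ n, ω ∈ Dp.A n := fun ω => mem_iUnion.1 (Dp.cover ▸ mem_univ ω)
  let d' : ℕ → ℝ := fun n => Nat.casesOn n 1 ds
  have hd' : ∀ n, 0 < d' n := by
    rintro (_ | n)
    · exact one_pos
    · exact hds n
  let g : Ω → ℝ := fun ω => d' (Nat.find (hcov ω))
  have hg : Measurable g :=
    (measurable_from_top (f := d')).comp (measurable_find hcov fun k => Dp.meas k)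
  have hge := AEEqFun.coeFn_mk (μ := μ) g hg.aestronglyMeasurable
  refine ⟨{p}, AEEqFun.mk g hg.aestronglyMeasurable, by simpa using hpP, ?_, fun x hx hxp => ?_⟩
  · filter_upwards [hge] with ω hω
    rw [hω]
    exact hd' _
  · have e1 := ae_all_iff.2 fun n => mul_loc (hp (x - x0) n)
    have e2 := ae_all_iff.2 fun n => H n x hx
    have e3 := ae_all_iff.2 fun n =>
      normQ_mono (μ := μ) (Finset.subset_insert q0 (Qs n)) (x - x0)
    filter_upwards [e1, e2, e3, hge, hxp, normQ_lt {p} (x - x0),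
      measure_eq_zero_iff_ae_notMem.1 hnull] with ω h1 h2 h3 h4 h5 h6 h7
    have hn := Nat.find_spec (hcov ω)
    rw [h4, h6] at h5
    have h8 := h5.2 p (Finset.mem_singleton_self p)
    change p (x - x0) ω < d' (Nat.find (hcov ω)) at h8
    generalize Nat.find (hcov ω) = n at hn h8
    rcases n with _ | n
    · exact absurd hn h7
    · rw [h1 _ hn] at h8
      exact h2 n (hDs n hn) (h3 n _ h8)

lemma basisEL [IsProbabilityMeasure μ] {P : Set (E → (Ω →ₘ[μ] ℝ))}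
    (hP : ∀ p ∈ P, IsSeminorm μ K p) (x : E) :
    (@nhds E (topEL μ P) x).HasBasis
      (fun _ : IdxEL μ P => True)
      (fun i => {y | y - x ∈ nbEL μ i.1.1 i.1.2.1 i.1.2.2}) := by
  classical
  have : Nonempty (IdxEL μ P) :=
    ⟨⟨(∅, 1, 1 / 2), by simp, one_pos, by norm_num, by norm_num⟩⟩
  have mono : ∀ (Q Q' : Finset (E → (Ω →ₘ[μ] ℝ))) (e e' l l' : ℝ), Q ⊆ Q' → e' ≤ e → l' ≤ l →
      nbEL μ Q' e' l' ⊆ nbEL μ Q e l := by
    intro Q Q' e e' l l' hQ he hl y hy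
    have a1 : μ.real {ω | normQ Q' y ω < e'} ≤ μ.real {ω | normQ Q y ω < e} := by
      refine ENNReal.toReal_mono (measure_ne_top _ _) (measure_mono_ae ?_)
      filter_upwards [normQ_mono hQ y] with ω h1 h2
      exact (h1 _ h2).trans_le he
    change 1 - l' < μ.real {ω | normQ Q' y ω < e'} at hy
    change 1 - l < μ.real {ω | normQ Q y ω < e}
    linarith
  have hb : ∀ a : E, (⨅ i : IdxEL μ P,
      𝓟 {y | y - a ∈ nbEL μ i.1.1 i.1.2.1 i.1.2.2}).HasBasis (fun _ => True)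
      (fun i : IdxEL μ P => {y | y - a ∈ nbEL μ i.1.1 i.1.2.1 i.1.2.2}) := fun a => by
    refine hasBasis_iInf_principal fun i j => ⟨⟨(i.1.1 ∪ j.1.1, min i.1.2.1 j.1.2.1,
      min i.1.2.2 j.1.2.2), ?_, lt_min i.2.2.1 j.2.2.1, lt_min i.2.2.2.1 j.2.2.2.1,
      (min_le_left _ _).trans_lt i.2.2.2.2⟩, fun y hy => ?_, fun y hy => ?_⟩
    · rw [Finset.coe_union]
      exact union_subset i.2.1 j.2.1
    · have hy' : y - a ∈ nbEL μ (i.1.1 ∪ j.1.1) (min i.1.2.1 j.1.2.1) (min i.1.2.2 j.1.2.2) := hy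
      exact mono i.1.1 _ i.1.2.1 _ i.1.2.2 _ Finset.subset_union_left (min_le_left _ _)
        (min_le_left _ _) hy'
    · have hy' : y - a ∈ nbEL μ (i.1.1 ∪ j.1.1) (min i.1.2.1 j.1.2.1) (min i.1.2.2 j.1.2.2) := hy
      exact mono j.1.1 _ j.1.2.1 _ j.1.2.2 _ Finset.subset_union_right (min_le_right _ _)
        (min_le_right _ _) hy'
  rw [topEL, TopologicalSpace.nhds_mkOfNhds_of_hasBasis hb]
  · exact hb x
  · intro a i _
    change 1 - i.1.2.2 < μ.real {ω | normQ i.1.1 (a - a) ω < i.1.2.1}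
    have : μ.real {ω | normQ i.1.1 (a - a) ω < i.1.2.1} = μ.real univ :=
      measureReal_congr (by
        filter_upwards [normQ_zero fun p hp => hP p (i.2.1 hp)] with ω hω
        rw [sub_self]
        exact propext ⟨fun _ => trivial, fun _ => hω _ i.2.2.1⟩)
    rw [this, probReal_univ]
    linarith [i.2.2.2.1]
  · rintro a ⟨⟨Q, e, l⟩, hQ, he, hl, hl1⟩ _
    have hh : (Q : Set (E → (Ω →ₘ[μ] ℝ))) ⊆ P ∧ 0 < e / 2 ∧ 0 < l / 2 ∧ l / 2 < 1 :=
      ⟨hQ, half_pos he, half_pos hl, by dsimp only at hl hl1; linarith⟩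
    refine (hb a).eventually_iff.2 ⟨⟨(Q, e / 2, l / 2), hh⟩, trivial, fun y hy => ?_⟩
    refine (hb y).mem_iff.2 ⟨⟨(Q, e / 2, l / 2), hh⟩, trivial, fun z hz => ?_⟩
    change 1 - l / 2 < μ.real {ω | normQ Q (y - a) ω < e / 2} at hy
    change 1 - l / 2 < μ.real {ω | normQ Q (z - y) ω < e / 2} at hz
    change 1 - l < μ.real {ω | normQ Q (z - a) ω < e}
    have a1 : μ.real ({ω | normQ Q (z - y) ω < e / 2} ∩ {ω | normQ Q (y - a) ω < e / 2}) ≤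
        μ.real {ω | normQ Q (z - a) ω < e} := by
      refine ENNReal.toReal_mono (measure_ne_top _ _) (measure_mono_ae ?_)
      filter_upwards [normQ_add (fun p hp => hP p (hQ hp)) (z - y) (y - a)] with ω h1 h2
      have := h1 _ _ h2.1 h2.2
      rw [sub_add_sub_cancel, add_halves] at this
      exact this
    have a2 := measureReal_union_add_inter (μ := μ) (s := {ω | normQ Q (z - y) ω < e / 2})
      (meas_lt (normQ Q (y - a)) (e / 2))
    have a3 : μ.real ({ω | normQ Q (z - y) ω < e / 2} ∪ {ω | normQ Q (y - a) ω < e / 2}) ≤ 1 :=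
      measureReal_le_one
    linarith

lemma basisC {P : Set (E → (Ω →ₘ[μ] ℝ))} (hP : ∀ p ∈ P, IsSeminorm μ K p) (x : E) :
    (@nhds E (topC μ P) x).HasBasis
      (fun _ : IdxC μ P => True)
      (fun i => {y | y - x ∈ nbC μ i.1.1 i.1.2}) := by
  classical
  have : Nonempty (IdxC μ P) :=
    ⟨⟨(∅, 1), by simp, by
      filter_upwards [AEEqFun.coeFn_one (μ := μ) (β := ℝ)] with ω hω
      rw [hω]
      exact one_pos⟩⟩
  have hb : ∀ a : E, (⨅ i : IdxC μ P,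
      𝓟 {y | y - a ∈ nbC μ i.1.1 i.1.2}).HasBasis (fun _ => True)
      (fun i : IdxC μ P => {y | y - a ∈ nbC μ i.1.1 i.1.2}) := fun a => by
    refine hasBasis_iInf_principal fun i j => ⟨⟨(i.1.1 ∪ j.1.1, i.1.2 ⊓ j.1.2), ?_, ?_⟩,
      fun y hy => ?_, fun y hy => ?_⟩
    · rw [Finset.coe_union]
      exact union_subset i.2.1 j.2.1
    · filter_upwards [i.2.2, j.2.2, AEEqFun.coeFn_inf i.1.2 j.1.2] with ω h1 h2 h3
      rw [h3]
      exact lt_min h1 h2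
    · filter_upwards [hy, AEEqFun.coeFn_inf i.1.2 j.1.2,
        normQ_mono (Finset.subset_union_left (s₁ := i.1.1) (s₂ := j.1.1)) (y - a)] with ω h1 h2 h3
      refine (h3 _ h1).trans_le ?_
      rw [h2]
      exact min_le_left _ _
    · filter_upwards [hy, AEEqFun.coeFn_inf i.1.2 j.1.2,
        normQ_mono (Finset.subset_union_right (s₁ := i.1.1) (s₂ := j.1.1)) (y - a)] with ω h1 h2 h3
      refine (h3 _ h1).trans_le ?_
      rw [h2]
      exact min_le_right _ _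
  rw [topC, TopologicalSpace.nhds_mkOfNhds_of_hasBasis hb]
  · exact hb x
  · intro a i _
    filter_upwards [normQ_zero fun p hp => hP p (i.2.1 hp), i.2.2] with ω h1 h2
    rw [sub_self]
    exact h1 _ h2
  · rintro a ⟨⟨Q, e⟩, hQ, he⟩ _
    have hs := AEEqFun.coeFn_smul (1 / 2 : ℝ) e
    have hh : (Q : Set (E → (Ω →ₘ[μ] ℝ))) ⊆ P ∧ ∀ᵐ ω ∂μ, 0 < ((1 / 2 : ℝ) • e) ω := ⟨hQ, by
      filter_upwards [he, hs] with ω h1 h2
      rw [h2]
      exact mul_pos (by norm_num) h1⟩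
    refine (hb a).eventually_iff.2 ⟨⟨(Q, (1 / 2 : ℝ) • e), hh⟩, trivial, fun y hy => ?_⟩
    refine (hb y).mem_iff.2 ⟨⟨(Q, (1 / 2 : ℝ) • e), hh⟩, trivial, fun z hz => ?_⟩
    filter_upwards [hy, hz, hs, normQ_add (fun p hp => hP p (hQ hp)) (z - y) (y - a)]
      with ω h1 h2 h3 h4
    have := h4 _ _ h2 h1
    rw [sub_add_sub_cancel, h3, Pi.smul_apply, smul_eq_mul] at this
    change normQ Q (z - a) ω < e ω
    linarith

end

/-- A `σ`-stable map on a `σ`-stable set that is continuous for the `(ε, λ)`-topology is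
continuous for the locally `L⁰`-convex topology. -/
theorem result {Ω : Type*} [MeasurableSpace Ω] (μ : Measure Ω) [IsProbabilityMeasure μ]
    (K : Type*) [RCLike K] {E : Type*} [AddCommGroup E] [DistribMulAction (Ω →ₘ[μ] K) E]
    (P : Set (E → (Ω →ₘ[μ] ℝ))) (hP : ∀ p ∈ P, IsSeminorm μ K p) (hPs : FamStable μ P)
    (hE : ∀ (D : Part Ω) (x : ℕ → E), ∃ y, Glue μ K D x y) (G : Set E)
    (hG : ∀ (D : Part Ω) (x : ℕ → E) (y : E), (∀ n, x n ∈ G) → Glue μ K D x y → y ∈ G)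
    (f : G → G)
    (hf : ∀ (D : Part Ω) (x : ℕ → G) (y : G), Glue μ K D (fun n => (x n : E)) y →
      Glue μ K D (fun n => (f (x n) : E)) (f y))
    (hc : @Continuous G G ((topEL μ P).induced Subtype.val) ((topEL μ P).induced Subtype.val) f) :
    @Continuous G G ((topC μ P).induced Subtype.val) ((topC μ P).induced Subtype.val) f := by
  classical
  let F : E → E := fun x => if h : x ∈ G then (f ⟨x, h⟩ : E) else 0
  have hF : ∀ x : G, F x = f x := fun x => dif_pos x.2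
  have hFs : ∀ (D : Part Ω) (x : ℕ → E) (y : E), (∀ n, x n ∈ G) → Glue μ K D x y →
      Glue μ K D (fun n => F (x n)) (F y) := fun D x y hx hy n => by
    have := hf D (fun n => ⟨x n, hx n⟩) ⟨y, hG D x y hx hy⟩ hy n
    simp only [← hF] at this
    exact this
  have bE : ∀ x : G, (@nhds G ((topEL μ P).induced Subtype.val) x).HasBasis _ _ := fun x => by
    rw [@nhds_induced E G (topEL μ P)]
    exact (basisEL hP (x : E)).comap Subtype.val
  have bC : ∀ x : G, (@nhds G ((topC μ P).induced Subtype.val) x).HasBasis _ _ := fun x => by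
    rw [@nhds_induced E G (topC μ P)]
    exact (basisC hP (x : E)).comap Subtype.val
  refine (@continuous_iff_continuousAt G G ((topC μ P).induced Subtype.val)
    ((topC μ P).induced Subtype.val) f).2 fun x0 => ?_
  refine ((bC x0).tendsto_iff (bC (f x0))).2 ?_
  rintro ⟨⟨Q, ε⟩, hQ, hε⟩ -
  have h0 := ((bE x0).tendsto_iff (bE (f x0))).1
    ((@continuous_iff_continuousAt G G ((topEL μ P).induced Subtype.val)
      ((topEL μ P).induced Subtype.val) f).1 hc x0)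
  obtain ⟨Q', δ, hQ', hδ, H⟩ := core hP hPs hE hG hFs x0.2 hQ (fun η l hη hl hl1 => by
    obtain ⟨⟨⟨Q', δ, l'⟩, h1, h2, h3, h4⟩, -, h5⟩ := h0 ⟨(Q, η, l), hQ, hη, hl, hl1⟩ trivial
    refine ⟨Q', δ, l', h1, h2, h3, fun x hx hxx => ?_⟩
    have := h5 ⟨x, hx⟩ hxx
    rw [hF ⟨x, hx⟩, hF x0]
    exact this) hε
  refine ⟨⟨(Q', δ), hQ', hδ⟩, trivial, fun x hx => ?_⟩
  have := H x x.2 hx
  rw [hF, hF] at this
  exact this

end Pool.Agent.Results.MP_6f9abf_an.Cont
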